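import Pool.Agent.H63.PU.Targets

/-!
# Modules EDGE, ROOT, TOPB (MP_6ed97a_co, upper bound for the pancake number)
-/

namespace Pool.Agent.H63.PU

open Pool.Agent.H53.PK

theorem pu_edge : T_PAIR → T_EDGE := by
  intro h
  obtain ⟨h1, h2⟩ := h
  refine ⟨?_, ?_, ?_⟩
  · intro n v l₁ l₂
    unfold Edge
    rw [h1, h1]
    tauto
  · intro n v l
    unfold Edge
    rw [h2, h2]
    tauto
  · intro n v l h
    rcases h with h | h
    · exact ⟨h.subset (by simp), h.subset (by simp)⟩
    · exact ⟨h.subset (by simp), h.subset (by simp)⟩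

theorem pu_root : T_EXT → T_EDGE → T_ROOT := by
  intro hE hD n a hn hp
  have hlen : a.length = n := by simpa using hp.length_eq
  have hnd : a.Nodup := hp.nodup_iff.mpr List.nodup_range'
  obtain ⟨z, a', rfl⟩ : ∃ z a', a = z :: a' := by
    cases a with
    | nil => simp at hlen; omega
    | cons z a' => exact ⟨z, a', rfl⟩
  have hcl : Closed n ([] ++ (z :: a') ++ []) (z :: a') := by
    intro v hv
    have := hD.2.2 n v _ hv
    simp only [List.nil_append, List.append_nil] at this
    exact ⟨fun _ => this.2, fun _ => this.1⟩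
  obtain ⟨g₁, Y, g₂, k, hl, hz, hT, hc1, hcY, hc2⟩ :=
    hE n [] (z :: a') [] z hn (by simpa using hp) hcl (by simp)
  have hg : g₁ = [] := by
    cases g₁ with
    | nil => rfl
    | cons c g =>
      exfalso
      simp only [List.cons_append, List.cons.injEq] at hl
      obtain ⟨rfl, hl2⟩ := hl
      rw [hl2] at hnd
      rw [List.nodup_cons] at hnd
      exact hnd.1 (by simp [hz])
  subst hg
  simp only [List.nil_append, List.append_nil] at hl hc1 hcY hc2
  refine ⟨k, fun _ => 1, [(.tok k 0 0, Y), (.gap, g₂)], rfl, ?_⟩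
  refine ⟨fun _ => ⟨le_refl _, by omega⟩, ?_, ?_, ?_⟩
  · simp [hl]
  · intro x hx
    simp only [List.mem_cons, List.not_mem_nil, or_false] at hx
    rcases hx with rfl | rfl
    · exact hcY
    · exact hc2
  · intro x hx
    simp only [List.mem_cons, List.not_mem_nil, or_false] at hx
    rcases hx with rfl | rfl
    · exact hT _
    · trivial

end Pool.Agent.H63.PU
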