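import Pool.Agent.H63.PU.Targets

/-!
# Module MAIN (MP_6ed97a_co, upper bound for the pancake number)
-/

namespace Pool.Agent.H63.PU

open Pool.Agent.H53.PK

theorem mn_d_le {n m : ℕ} {a : List ℕ} (h : Reach n m a (sortedStack n)) : d n a ≤ m := by
  obtain ⟨ks, hlen, hks, hf⟩ := h
  have h1 : SortableIn n ks.length a := ⟨ks, rfl, hks, hf⟩
  have h2 : d n a ≤ ks.length := Nat.sInf_le h1
  exact h2.trans hlen

theorem mn_f_le {n B : ℕ} (h : ∀ a : List ℕ, a.Perm (sortedStack n) → d n a ≤ B) : f n ≤ B := by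
  unfold f
  apply csSup_le
  · exact ⟨d n (sortedStack n), sortedStack n, List.Perm.refl _, rfl⟩
  · rintro m ⟨a, ha, rfl⟩
    exact h a ha

theorem mn_f_mem {n B : ℕ} (h : ∀ a : List ℕ, a.Perm (sortedStack n) → d n a ≤ B) :
    ∃ a : List ℕ, a.Perm (sortedStack n) ∧ f n = d n a := by
  have hne : {m | ∃ a : List ℕ, a.Perm (sortedStack n) ∧ m = d n a}.Nonempty :=
    ⟨d n (sortedStack n), sortedStack n, List.Perm.refl _, rfl⟩
  have hb : BddAbove {m | ∃ a : List ℕ, a.Perm (sortedStack n) ∧ m = d n a} := by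
    refine ⟨B, ?_⟩
    rintro m ⟨a, ha, rfl⟩
    exact h a ha
  exact Nat.sSup_mem hne hb

theorem pu_main : T_ALL → T_MAIN := by
  intro hA W hW hB hS
  obtain ⟨C, hC⟩ := hA W hW hB hS
  refine ⟨C + W.M * (f 0 + f 1 + f 2), ?_⟩
  intro n
  by_cases hn : 3 ≤ n
  · have hd : ∀ a : List ℕ, a.Perm (sortedStack n) → W.M * d n a ≤ W.F * n + C := by
      intro a ha
      obtain ⟨m, hm, hle⟩ := hC n a hn ha
      exact (Nat.mul_le_mul_left _ (mn_d_le hm)).trans hle
    have hd' : ∀ a : List ℕ, a.Perm (sortedStack n) → d n a ≤ W.F * n + C := by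
      intro a ha
      refine le_trans ?_ (hd a ha)
      exact Nat.le_mul_of_pos_left _ hW.M1
    obtain ⟨a, ha, hfa⟩ := mn_f_mem hd'
    rw [hfa]
    have := hd a ha
    omega
  · have h3 : n = 0 ∨ n = 1 ∨ n = 2 := by omega
    have : f n ≤ f 0 + f 1 + f 2 := by
      rcases h3 with rfl | rfl | rfl <;> omega
    have := Nat.mul_le_mul_left W.M this
    omega

end Pool.Agent.H63.PU
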