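import Pool.Agent.H63.PU.Targets

/-!
# Module TOPB (MP_6ed97a_co, upper bound for the pancake number)
-/

namespace Pool.Agent.H63.PU

open Pool.Agent.H53.PK

/-- replace one part of a configuration -/
theorem tb_replace {n : ℕ} {a : List ℕ} {val : ℕ → ℕ} {R₁ R₂ N : List (Item × List ℕ)}
    {x : Item × List ℕ} (hW : RealW n a val (R₁ ++ x :: R₂))
    (hf : (N.map Prod.snd).flatten = x.2) (hc : ∀ y ∈ N, Closed n a y.2)
    (hi : ∀ y ∈ N, ItemR n val y.1 y.2) : RealW n a val (R₁ ++ N ++ R₂) := by
  refine ⟨hW.val1, ?_, ?_, ?_⟩
  · rw [← hW.flat]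
    simp only [List.map_append, List.flatten_append, List.map_cons, List.flatten_cons, hf,
      List.append_assoc]
  · intro y hy
    rw [List.append_assoc, List.mem_append, List.mem_append] at hy
    rcases hy with hy | hy | hy
    · exact hW.closed y (by simp [hy])
    · exact hc y hy
    · exact hW.closed y (by simp [hy])
  · intro y hy
    rw [List.append_assoc, List.mem_append, List.mem_append] at hy
    rcases hy with hy | hy | hy
    · exact hW.item y (by simp [hy])
    · exact hi y hy
    · exact hW.item y (by simp [hy])

theorem tb_split {is : List Item} {R : List (Item × List ℕ)} {i : ℕ} (hR : R.map Prod.fst = is)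
    (hi : is[i]? = some .gap) : ∃ g : List ℕ, R = R.take i ++ (Item.gap, g) :: R.drop (i + 1) ∧
      (R.take i).map Prod.fst = is.take i ∧ (R.drop (i + 1)).map Prod.fst = is.drop (i + 1) := by
  subst hR
  rw [List.getElem?_map] at hi
  cases hRi : R[i]? with
  | none => rw [hRi] at hi; simp at hi
  | some x =>
    rw [hRi] at hi
    simp only [Option.map_some, Option.some.injEq] at hi
    obtain ⟨hlt, hx⟩ := List.getElem?_eq_some_iff.mp hRi
    refine ⟨x.2, ?_, ?_, ?_⟩
    · have h2 : (Item.gap, x.2) = R[i] := by rw [hx]; exact Prod.ext hi.symm rfl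
      rw [h2, List.getElem_cons_drop, List.take_append_drop]
    · rw [List.map_take]
    · rw [List.map_drop]

/-- the block at a chosen end of a gap -/
theorem tb_block (hE : T_EXT) {n : ℕ} {a : List ℕ} {val : ℕ → ℕ} {R₁ R₂ : List (Item × List ℕ)}
    {g : List ℕ} (hn : 3 ≤ n) (hp : a.Perm (List.range' 1 n))
    (hW : RealW n a val (R₁ ++ (Item.gap, g) :: R₂)) {z : ℕ} (hz : z ∈ g) :
    ∃ (g₁ Y g₂ : List ℕ) (k : Kd), g = g₁ ++ Y ++ g₂ ∧ z ∈ Y ∧
    (∀ val : ℕ → ℕ, Tok n val k 0 0 Y) ∧ Closed n a g₁ ∧ Closed n a Y ∧ Closed n a g₂ := by
  have hfl : (R₁.map Prod.snd).flatten ++ g ++ (R₂.map Prod.snd).flatten = a := by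
    rw [← hW.flat]; simp
  have h1 : Closed n a g := hW.closed (Item.gap, g) (by simp)
  have := hE n (R₁.map Prod.snd).flatten g (R₂.map Prod.snd).flatten z hn (by rw [hfl]; exact hp)
    (by rw [hfl]; exact h1) hz
  rw [hfl] at this
  exact this

theorem tb_nodup {n : ℕ} {a : List ℕ} {val : ℕ → ℕ} {R₁ R₂ : List (Item × List ℕ)}
    {g : List ℕ} (hp : a.Perm (List.range' 1 n))
    (hW : RealW n a val (R₁ ++ (Item.gap, g) :: R₂)) : g.Nodup := by
  have hnd : a.Nodup := hp.nodup_iff.mpr List.nodup_range'
  have hfl : (R₁.map Prod.snd).flatten ++ g ++ (R₂.map Prod.snd).flatten = a := by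
    rw [← hW.flat]; simp
  rw [← hfl] at hnd
  exact (List.nodup_append.mp (List.nodup_append.mp hnd).1).2.1

theorem tb_kd (k : Kd) : k = .s ∨ k = .p ∨ k = .m := by cases k <;> simp

theorem pu_topb : T_EXT → T_TOPB := by
  intro hE n a i is l hn hp hR hans
  obtain ⟨val, R, hRm, hW⟩ := hR
  rcases hans with hans | hans
  · -- top
    dsimp only [answers] at hans
    split at hans
    · rename_i hi
      obtain ⟨g, hsp, h1, h2⟩ := tb_split hRm hi
      rw [hsp] at hW
      generalize hR1 : R.take i = R₁ at *
      generalize hR2 : R.drop (i + 1) = R₂ at *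
      simp only [Option.some.injEq] at hans
      cases g with
      | nil =>
        refine ⟨is.take i ++ is.drop (i + 1), by rw [← hans]; simp, val, R₁ ++ [] ++ R₂,
          by simp [h1, h2], ?_⟩
        exact tb_replace hW (by simp) (by simp) (by simp)
      | cons z g =>
        obtain ⟨g₁, Y, g₂, k, hl, hz, hT, hc1, hcY, hc2⟩ :=
          tb_block hE hn hp hW (z := z) (by simp)
        have hnd := tb_nodup hp hW
        have hg : g₁ = [] := by
          cases g₁ with
          | nil => rfl
          | cons c g' =>
            exfalso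
            simp only [List.cons_append, List.cons.injEq] at hl
            obtain ⟨rfl, hl2⟩ := hl
            rw [hl2] at hnd
            rw [List.nodup_cons] at hnd
            exact hnd.1 (by simp [hz])
        subst hg
        have hreal : Real n a (is.take i ++ .tok k 0 0 :: .gap :: is.drop (i + 1)) := by
          refine ⟨val, R₁ ++ [(.tok k 0 0, Y), (.gap, g₂)] ++ R₂, by simp [h1, h2], ?_⟩
          refine tb_replace hW ?_ ?_ ?_
          · simp [hl]
          · intro y hy
            simp only [List.mem_cons, List.not_mem_nil, or_false] at hy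
            rcases hy with rfl | rfl
            · exact hcY
            · exact hc2
          · intro y hy
            simp only [List.mem_cons, List.not_mem_nil, or_false] at hy
            rcases hy with rfl | rfl
            · exact hT _
            · trivial
        refine ⟨_, ?_, hreal⟩
        rw [← hans]
        rcases tb_kd k with rfl | rfl | rfl <;> simp
    · cases hans
  · -- bottom
    dsimp only [answers] at hans
    split at hans
    · rename_i hi
      obtain ⟨g, hsp, h1, h2⟩ := tb_split hRm hi
      rw [hsp] at hW
      generalize hR1 : R.take i = R₁ at *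
      generalize hR2 : R.drop (i + 1) = R₂ at *
      simp only [Option.some.injEq] at hans
      rcases List.eq_nil_or_concat' g with rfl | ⟨g, z, rfl⟩
      · refine ⟨is.take i ++ is.drop (i + 1), by rw [← hans]; simp, val, R₁ ++ [] ++ R₂,
          by simp [h1, h2], ?_⟩
        exact tb_replace hW (by simp) (by simp) (by simp)
      · obtain ⟨g₁, Y, g₂, k, hl, hz, hT, hc1, hcY, hc2⟩ :=
          tb_block hE hn hp hW (z := z) (by simp)
        have hnd := tb_nodup hp hW
        have hg : g₂ = [] := by
          rcases List.eq_nil_or_concat' g₂ with rfl | ⟨g', c, rfl⟩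
          · rfl
          · exfalso
            rw [← List.append_assoc] at hl
            obtain ⟨hl2, hzc⟩ := List.append_inj' hl rfl
            simp only [List.cons.injEq, and_true] at hzc
            subst hzc
            rw [List.nodup_append] at hnd
            exact hnd.2.2 z (by rw [hl2]; simp [hz]) z (by simp) rfl
        subst hg
        have hreal : Real n a (is.take i ++ .gap :: .tok k 0 0 :: is.drop (i + 1)) := by
          refine ⟨val, R₁ ++ [(.gap, g₁), (.tok k 0 0, Y)] ++ R₂, by simp [h1, h2], ?_⟩
          refine tb_replace hW ?_ ?_ ?_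
          · simp [hl]
          · intro y hy
            simp only [List.mem_cons, List.not_mem_nil, or_false] at hy
            rcases hy with rfl | rfl
            · exact hc1
            · exact hcY
          · intro y hy
            simp only [List.mem_cons, List.not_mem_nil, or_false] at hy
            rcases hy with rfl | rfl
            · trivial
            · exact hT _
        refine ⟨_, ?_, hreal⟩
        rw [← hans]
        rcases tb_kd k with rfl | rfl | rfl <;> simp
    · cases hans

end Pool.Agent.H63.PU
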